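import Pool.Agent.helper97.KR.Spec

set_option autoImplicit false

namespace Pool.Agent.helper97.KR

open Finset Classical

noncomputable section

theorem CT2_mono {V E : Type} (ends : E → Sym2 V) (A B : Set E) (hAB : A ⊆ B) (a b : V)
    (h : Relation.ReflTransGen (Jn ends A) a b) : Relation.ReflTransGen (Jn ends B) a b := by
  induction h with
  | refl => exact Relation.ReflTransGen.refl
  | tail _ hs ih =>
    obtain ⟨e, he, hs'⟩ := hs
    exact ih.tail ⟨e, hAB he, hs'⟩

theorem CT2_to {V E : Type} (ends : E → Sym2 V) (U : Finset V) (t : V) (W1 W2 : Set E) (ht : t ∈ U)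
    (h1 : Con ends U W1) (u : V) : Relation.ReflTransGen (Jn ends (W1 ∪ W2)) u (cp U t u) := by
  unfold cp
  split_ifs with h
  · exact CT2_mono ends W1 (W1 ∪ W2) Set.subset_union_left u t (h1 u h t ht)
  · exact Relation.ReflTransGen.refl

theorem CT2_from {V E : Type} (ends : E → Sym2 V) (U : Finset V) (t : V) (W1 W2 : Set E) (ht : t ∈ U)
    (h1 : Con ends U W1) (u : V) : Relation.ReflTransGen (Jn ends (W1 ∪ W2)) (cp U t u) u := by
  unfold cp
  split_ifs with h
  · exact CT2_mono ends W1 (W1 ∪ W2) Set.subset_union_left t u (h1 t ht u h)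
  · exact Relation.ReflTransGen.refl

theorem CT2_step {V E : Type} (ends : E → Sym2 V) (U : Finset V) (t : V) (W1 W2 : Set E) (ht : t ∈ U)
    (h1 : Con ends U W1) (a' b' : V) (h : Jn (cE ends U t) W2 a' b') :
    Relation.ReflTransGen (Jn ends (W1 ∪ W2)) a' b' := by
  obtain ⟨e, he, hs⟩ := h
  unfold cE at hs
  obtain ⟨a, b, hab⟩ : ∃ a b, ends e = s(a, b) := by
    induction h : ends e using Sym2.ind with
    | _ a b => exact ⟨a, b, rfl⟩
  rw [hab, Sym2.map_mk] at hs
  have hs' : s(cp U t a, cp U t b) = s(a', b') := hs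
  rw [Sym2.eq_iff] at hs'
  rcases hs' with ⟨ha, hb⟩ | ⟨ha, hb⟩
  · rw [← ha, ← hb]
    refine (CT2_from ends U t W1 W2 ht h1 a).trans ?_
    refine Relation.ReflTransGen.trans ?_ (CT2_to ends U t W1 W2 ht h1 b)
    exact Relation.ReflTransGen.single ⟨e, Or.inr he, hab⟩
  · rw [← ha, ← hb]
    refine (CT2_from ends U t W1 W2 ht h1 b).trans ?_
    refine Relation.ReflTransGen.trans ?_ (CT2_to ends U t W1 W2 ht h1 a)
    exact Relation.ReflTransGen.single ⟨e, Or.inr he, by rw [hab]; exact Sym2.eq_swap⟩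

theorem CT2_path {V E : Type} (ends : E → Sym2 V) (U : Finset V) (t : V) (W1 W2 : Set E) (ht : t ∈ U)
    (h1 : Con ends U W1) (a' b' : V) (h : Relation.ReflTransGen (Jn (cE ends U t) W2) a' b') :
    Relation.ReflTransGen (Jn ends (W1 ∪ W2)) a' b' := by
  induction h with
  | refl => exact Relation.ReflTransGen.refl
  | tail _ hs ih => exact ih.trans (CT2_step ends U t W1 W2 ht h1 _ _ hs)

theorem CT2_mem {V : Type} (S U : Finset V) (t : V) (u : V) (hu : u ∈ S) : cp U t u ∈ cS S U t := by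
  unfold cp cS
  split_ifs with h
  · exact Finset.mem_insert_self t _
  · exact Finset.mem_insert_of_mem (Finset.mem_sdiff.mpr ⟨hu, h⟩)

theorem CT2 : CT2_stmt := by
  intro V E ends S U t W1 W2 ht hUS h1 h2 u hu v hv
  refine (CT2_to ends U t W1 W2 ht h1 u).trans ?_
  refine Relation.ReflTransGen.trans ?_ (CT2_from ends U t W1 W2 ht h1 v)
  exact CT2_path ends U t W1 W2 ht h1 _ _ (h2 _ (CT2_mem S U t u hu) _ (CT2_mem S U t v hv))

end

end Pool.Agent.helper97.KR
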